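import Pool.Agent.Q61.BootFinal

/-!
# MP_28b826_pr, question Q2: the mean occupation time at criticality

For every subcritical update family `U` the mean occupation time `𝔼_{p_c} T` is finite if and
only if `p_c = 1` (in which case `T = 0` almost surely); if `p_c < 1` then
`ℙ_p(T > n) ≥ c / n` for all `p ≤ p_c`, `n ≥ 1` and `𝔼_{p_c} T = ∞`, whether or not percolation
occurs at `p_c`.
-/

open MeasureTheory Set
open scoped ENNReal

namespace Pool.Agent.Results.MP_28b826_pr.CriticalInfectionTime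

open Pool.Agent.Q61.Boot

theorem result (U : UpdateFamily) (hU : U.Subcritical) :
    ∃ q : unitInterval, (q : ℝ) = U.pc ∧
      (∫⁻ ω, U.time ω ∂(law q) < ⊤ ↔ U.pc = 1) ∧
      (U.pc = 1 → ∀ᵐ ω ∂(law q), U.time ω = 0) ∧
      (U.pc < 1 → ∃ c : ℝ, 0 < c ∧ ∀ p : unitInterval, p ≤ q → ∀ n : ℕ, 1 ≤ n →
        ENNReal.ofReal (c / n) ≤ law p {ω | (n : ℝ≥0∞) < U.time ω}) := by
  have h0 := hU.empty_notMem
  have hmem := UpdateFamily.pc_mem U
  refine ⟨⟨U.pc, hmem⟩, rfl, ⟨fun h => ?_, fun h => ?_⟩, fun h => ?_, fun h => ?_⟩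
  · by_contra hne
    have hlt : U.pc < 1 := lt_of_le_of_ne hmem.2 hne
    obtain ⟨c, hc, hlow⟩ := UpdateFamily.exists_lower h0 hlt
    have := UpdateFamily.lintegral_time_eq_top (q := ⟨U.pc, hmem⟩) hc (hlow _ le_rfl)
    exact absurd this h.ne
  · have hq : (⟨U.pc, hmem⟩ : unitInterval) = 1 := Subtype.ext h
    rw [hq, lintegral_congr_ae UpdateFamily.time_one]
    simp
  · have hq : (⟨U.pc, hmem⟩ : unitInterval) = 1 := Subtype.ext h
    rw [hq]
    exact UpdateFamily.time_one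
  · obtain ⟨c, hc, hlow⟩ := UpdateFamily.exists_lower h0 h
    exact ⟨c, hc, fun p hp => hlow p hp⟩

end Pool.Agent.Results.MP_28b826_pr.CriticalInfectionTime
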